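import Pool.Agent.helper74.VD.SpecA3

/-!
# Project VD: row AFOD (overlaps of families of packets)

`z = y.1 w` turns the overlap into `∫ f_y(w) conj (f'_(y')(κ⁻¹ w)) dmv(w)`, `κ = y.1⁻¹ y'.1`. If it does not vanish there is a point `w` in both supports, so `κ` moves a point of a fixed ball into this ball;
the second packet is a packet at `lft κ (Φ t' y'.2)` (row APKC), and row AOVD applies with the exponent `2η`.
-/

set_option autoImplicit false

open scoped ContDiff Topology InnerProductSpace ComplexConjugate ENNReal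
open MeasureTheory Filter Set

namespace Pool.Agent.VD

open Pool.Agent.VQ (CH)

noncomputable section

/-- larger exponents -/
theorem AFOD_mono {d : ℕ} {Kd : ℕ} {η η' m R : ℝ} {q : P d} {f : V d → ℂ} (hR : 1 ≤ R) (hm : 0 ≤ m) (he : η ≤ η') (h : Pk Kd η m R q f) : Pk Kd η' m R q f := by
  obtain ⟨A, h1, h2, h3, h4⟩ := h
  refine ⟨A, h1, fun v hv => (h2 v hv).trans (Real.rpow_le_rpow_of_exponent_le hR (by linarith)), fun k hk v => (h3 k hk v).trans ?_, h4⟩
  refine mul_le_mul_of_nonneg_left ?_ hm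
  exact pow_le_pow_left₀ (Real.rpow_nonneg (by linarith) _) (Real.rpow_le_rpow_of_exponent_le hR (by linarith)) k

/-- the support of a packet -/
theorem AFOD_supp {d : ℕ} {Kd : ℕ} {η m R : ℝ} {q : P d} {f : V d → ℂ} (hR : 1 ≤ R) (he : η ≤ 1 / 2) (h : Pk Kd η m R q f) {w : V d} (hw : f w ≠ 0) : ‖w - q.1‖ ≤ 1 := by
  obtain ⟨A, h1, h2, h3, h4⟩ := h
  have hA : A (w - q.1) ≠ 0 := by
    intro hA
    exact hw (by rw [h4, hA, mul_zero])
  refine (h2 _ hA).trans ?_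
  exact Real.rpow_le_one_of_one_le_of_nonpos hR (by linarith)

theorem AFOD_quarter {R : ℝ} (hR : 16 ≤ R) : R ^ (-(1 / 4) : ℝ) ≤ 1 / 2 := by
  have h1 : R ^ (-(1 / 4) : ℝ) ≤ (16 : ℝ) ^ (-(1 / 4) : ℝ) := Real.rpow_le_rpow_of_nonpos (by norm_num) hR (by norm_num)
  have h2 : (16 : ℝ) ^ (-(1 / 4) : ℝ) = 1 / 2 := by
    rw [show (16 : ℝ) = (2 : ℝ) ^ (4 : ℝ) by
      rw [show (4 : ℝ) = ((4 : ℕ) : ℝ) by norm_num, Real.rpow_natCast]; norm_num, ← Real.rpow_mul (by norm_num : (0 : ℝ) ≤ 2)]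
    rw [show (4 : ℝ) * (-(1 / 4)) = -1 by norm_num, Real.rpow_neg_one]
    norm_num
  rw [h2] at h1
  exact h1

/-- the change of variables -/
theorem AFOD_cov {d : ℕ} {Γ : Type} [Group Γ] [MulAction Γ (V d)] {G : V d → V d →L[ℝ] V d} (hmp : ∀ γ : Γ, MeasurePreserving (fun x : V d => γ • x) (mv G) (mv G)) (f f' : YS Γ d → V d → ℂ) (y y' : YS Γ d) :
    ∫ z, pF f y z * conj (pF f' y' z) ∂mv G = ∫ w, f y w * conj (f' y' ((y.1⁻¹ * y'.1)⁻¹ • w)) ∂mv G := by
  let e : V d ≃ᵐ V d :=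
    { toFun := fun x => y.1 • x
      invFun := fun x => y.1⁻¹ • x
      left_inv := fun x => inv_smul_smul y.1 x
      right_inv := fun x => smul_inv_smul y.1 x
      measurable_toFun := (hmp y.1).measurable
      measurable_invFun := (hmp y.1⁻¹).measurable }
  have he : MeasurePreserving e (mv G) (mv G) := hmp y.1
  have h := he.integral_comp e.measurableEmbedding (fun z => pF f y z * conj (pF f' y' z))
  rw [← h]
  refine integral_congr_ae (Filter.Eventually.of_forall fun w => ?_)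
  have h1 : pF f y (e w) = f y w := by
    change f y (y.1⁻¹ • (y.1 • w)) = f y w
    rw [inv_smul_smul]
  have h2 : pF f' y' (e w) = f' y' ((y.1⁻¹ * y'.1)⁻¹ • w) := by
    change f' y' (y'.1⁻¹ • (y.1 • w)) = f' y' ((y.1⁻¹ * y'.1)⁻¹ • w)
    rw [mul_inv_rev, inv_inv, mul_smul]
  change pF f y (e w) * conj (pF f' y' (e w)) = _
  rw [h1, h2]

theorem AFOD_proof (hO : AOVD_stmt) (hP : APKC_stmt) (hN : ACNF_stmt) (hS : ASGF_stmt) (hV : AMVI_stmt) : AFOD_stmt := by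
  intro d Γ _ _ K k B r0 hK
  obtain ⟨C1, hC1, H1⟩ := hN d Γ K k B r0 1 hK
  obtain ⟨-, -, C2, hC2, H2⟩ := hS d Γ K hK (C1 + 1) 0
  set r : ℝ := C1 + C2 + 2 with hr
  have hd0 : (0 : ℝ) ≤ d := Nat.cast_nonneg d
  set C : ℝ := r + 2 * d + 40 with hC
  refine ⟨C, by linarith, fun M η hη hCη => ?_⟩
  have hη1 : η ≤ 1 / 40 := by
    have h40 : 40 * η ≤ C * η := mul_le_mul_of_nonneg_right (by linarith) hη.le
    linarith
  obtain ⟨Kd, R1, hR1, HO⟩ := hO d Γ K k B r (M + 1) (2 * η) hK (by linarith) (by linarith)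
  obtain ⟨R2, hR2, HP⟩ := hP d Γ K r Kd η hK hη (by linarith)
  refine ⟨Kd, max (max R1 R2) 16, le_trans (by norm_num) (le_max_right _ _), ?_⟩
  intro R m m' t t' G Φ f f' y y' hR hOK hm hm' ht ht' hy hy' hf hf'
  have hRR1 : R1 ≤ R := (le_max_left _ _).trans ((le_max_left _ _).trans hR)
  have hRR2 : R2 ≤ R := (le_max_right _ _).trans ((le_max_left _ _).trans hR)
  have hR16 : 16 ≤ R := (le_max_right _ _).trans hR
  have hRone : 1 ≤ R := by linarith
  have hRpos : 0 < R := by linarith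
  have hmp := (hV d Γ K k B G hK hOK.cls).2.2.2.2.2.1
  rw [AFOD_cov hmp f f' y y']
  set κ : Γ := y.1⁻¹ * y'.1 with hκ
  have hmm : 0 ≤ m * m' := mul_nonneg hm hm'
  by_cases hI : (∫ w, f y w * conj (f' y' (κ⁻¹ • w)) ∂mv G) = 0
  · rw [hI]
    refine ⟨?_, fun h => absurd rfl h, fun _ => ?_⟩
    · rw [norm_zero]
      exact mul_nonneg hmm (Real.rpow_nonneg hRpos.le _)
    · rw [norm_zero]
      exact mul_nonneg hmm (Real.rpow_nonneg hRpos.le _)
  · -- a point in both supports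
    have hw : ∃ w, f y w * conj (f' y' (κ⁻¹ • w)) ≠ 0 := by
      by_contra hno
      push Not at hno
      apply hI
      rw [integral_congr_ae (Filter.Eventually.of_forall hno)]
      exact integral_zero _ _
    obtain ⟨w, hw⟩ := hw
    have hw1 : f y w ≠ 0 := left_ne_zero_of_mul hw
    have hw2 : f' y' (κ⁻¹ • w) ≠ 0 := by
      intro h0
      exact hw (by rw [h0, map_zero, mul_zero])
    -- the window
    have hwin : ∀ z : YS Γ d, z ∈ GW Γ G r0 2 R → Ham G z.2 ≤ 2 := by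
      intro z hz
      have h1 := hz.2
      have h2 := AFOD_quarter hR16
      have h3 := (abs_le.mp h1).2
      have h4 : Ham G z.2 - 1 / 2 ≤ 2 * R ^ (-(1 / 4) : ℝ) := h3
      linarith
    obtain ⟨a1, a2, -, -, -⟩ := H1 G Φ hOK y.2 t hy.1 (hwin y hy) ht
    obtain ⟨b1, b2, -, -, -⟩ := H1 G Φ hOK y'.2 t' hy'.1 (hwin y' hy') ht'
    have c1 : ‖w - (Φ t y.2).1‖ ≤ 1 := AFOD_supp hRone (by linarith) hf hw1
    have c2 : ‖κ⁻¹ • w - (Φ t' y'.2).1‖ ≤ 1 := AFOD_supp hRone (by linarith) hf' hw2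
    have e1 : ‖w‖ ≤ C1 + 1 := by
      have : w = (Φ t y.2).1 + (w - (Φ t y.2).1) := by abel
      rw [this]
      refine (norm_add_le _ _).trans (by linarith)
    have e2 : ‖κ⁻¹ • w‖ ≤ C1 + 1 := by
      have : κ⁻¹ • w = (Φ t' y'.2).1 + (κ⁻¹ • w - (Φ t' y'.2).1) := by abel
      rw [this]
      refine (norm_add_le _ _).trans (by linarith)
    have hS1 : κ ∈ SG Γ d (C1 + 1) := ⟨κ⁻¹ • w, e2, by rw [smul_inv_smul]; exact e1⟩
    have hmonoS : ∀ s : ℝ, C1 + 1 ≤ s → κ ∈ SG Γ d s := by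
      intro s hs
      obtain ⟨x, hx1, hx2⟩ := hS1
      exact ⟨x, hx1.trans hs, hx2.trans hs⟩
    obtain ⟨-, -, L, -⟩ := H2 κ hS1 (Φ t' y'.2).1 (b1.trans (by linarith))
    have e3 : ‖κ • (Φ t' y'.2).1‖ ≤ r - 1 := by
      have h1 := L (κ⁻¹ • w) e2
      rw [smul_inv_smul] at h1
      have h2 : ‖(Φ t' y'.2).1 - κ⁻¹ • w‖ ≤ 1 := by rw [norm_sub_rev]; exact c2
      have h3 : ‖κ • (Φ t' y'.2).1 - w‖ ≤ C2 := h1.trans (by
        calc C2 * ‖(Φ t' y'.2).1 - κ⁻¹ • w‖ ≤ C2 * 1 := mul_le_mul_of_nonneg_left h2 (by linarith)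
          _ = C2 := mul_one _)
      have h4 : κ • (Φ t' y'.2).1 = (κ • (Φ t' y'.2).1 - w) + w := by abel
      rw [h4]
      refine (norm_add_le _ _).trans ?_
      linarith
    have hP2 := HP R m' κ (Φ t' y'.2) (f' y') hRR2 hm' (hmonoS r (by linarith)) (b1.trans (by linarith)) e3 (b2.trans (by linarith)) hf'
    have hP1 : Pk Kd (2 * η) m R (Φ t y.2) (f y) := AFOD_mono hRone hm (by linarith) hf
    have hmR : 0 ≤ m' * R ^ η := mul_nonneg hm' (Real.rpow_nonneg hRpos.le _)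
    obtain ⟨k1, -, k3⟩ := HO R m (m' * R ^ η) G (Φ t y.2) (lft κ (Φ t' y'.2)) (f y) (fun w => f' y' (κ⁻¹ • w)) hRR1 hOK.cls hm hmR (a1.trans (by linarith)) hP1 hP2
    refine ⟨k1.trans ?_, fun _ => hmonoS C (by linarith), fun hdist => (k3 ?_).trans ?_⟩
    · have h1 : m * (m' * R ^ η) * R ^ (-((d : ℝ) / 2) + (d + 1) * (2 * η)) = m * m' * (R ^ η * R ^ (-((d : ℝ) / 2) + (d + 1) * (2 * η))) := by ring
      rw [h1, ← Real.rpow_add hRpos]
      refine mul_le_mul_of_nonneg_left (Real.rpow_le_rpow_of_exponent_le hRone ?_) hmm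
      have h2 : (2 * (d : ℝ) + 3) * η ≤ C * η := mul_le_mul_of_nonneg_right (by linarith) hη.le
      linarith
    · intro hlt
      apply hdist
      refine hlt.trans_le (Real.rpow_le_rpow_of_exponent_le hRone ?_)
      have h2 : 8 * η ≤ C * η := mul_le_mul_of_nonneg_right (by linarith) hη.le
      linarith
    · have h1 : m * (m' * R ^ η) * R ^ (-(M + 1)) = m * m' * (R ^ η * R ^ (-(M + 1))) := by ring
      rw [h1, ← Real.rpow_add hRpos]
      exact mul_le_mul_of_nonneg_left (Real.rpow_le_rpow_of_exponent_le hRone (by linarith)) hmm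

end

end Pool.Agent.VD
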