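import Pool.Agent.helper80.VD.SpecF

set_option autoImplicit false

open scoped ContDiff Topology InnerProductSpace
open MeasureTheory Filter Set

namespace Pool.Agent.VD

noncomputable section

theorem GIN_inj {d : ℕ} {G : V d → V d →L[ℝ] V d} (hG : IsMetric G) (x : V d) : Function.Injective (G x : V d →ₗ[ℝ] V d) := by
  rw [injective_iff_map_eq_zero]
  intro u hu
  by_contra hne
  have h1 := hG.pos x u hne
  have h2 : G x u = 0 := hu
  rw [h2, inner_zero_left] at h1
  exact lt_irrefl _ h1

/-- the operator of the metric as an equivalence -/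
def GIN_e {d : ℕ} {G : V d → V d →L[ℝ] V d} (hG : IsMetric G) (x : V d) : V d ≃L[ℝ] V d :=
  (LinearEquiv.ofInjectiveEndo (G x : V d →ₗ[ℝ] V d) (GIN_inj hG x)).toContinuousLinearEquiv

theorem GIN_coe {d : ℕ} {G : V d → V d →L[ℝ] V d} (hG : IsMetric G) (x : V d) : ((GIN_e hG x : V d ≃L[ℝ] V d) : V d →L[ℝ] V d) = G x := by
  ext u
  rfl

theorem GIN_IG {d : ℕ} {G : V d → V d →L[ℝ] V d} (hG : IsMetric G) (x : V d) : IG G x = ((GIN_e hG x).symm : V d →L[ℝ] V d) := by
  unfold IG
  rw [← GIN_coe hG x, ContinuousLinearMap.inverse_equiv]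

theorem GIN_proof : GIN_stmt := by
  intro d G hG
  have h1 : ∀ x u, IG G x (G x u) = u ∧ G x (IG G x u) = u := by
    intro x u
    constructor
    · rw [GIN_IG hG x]
      exact (GIN_e hG x).symm_apply_apply u
    · rw [GIN_IG hG x]
      exact (GIN_e hG x).apply_symm_apply u
  have h2 : ∀ x u v, ⟪IG G x u, v⟫_ℝ = ⟪u, IG G x v⟫_ℝ := by
    intro x u v
    have h3 := hG.symm x (IG G x u) (IG G x v)
    rw [(h1 x u).2, (h1 x v).2] at h3
    exact h3.symm
  have hsm : ContDiff ℝ ∞ (IG G) := by
    rw [contDiff_iff_contDiffAt]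
    intro x
    have h3 : ContDiffAt ℝ ∞ (ContinuousLinearMap.inverse : (V d →L[ℝ] V d) → V d →L[ℝ] V d) (G x) := by
      have h4 := contDiffAt_map_inverse (𝕜 := ℝ) (n := ∞) (GIN_e hG x)
      rw [GIN_coe hG x] at h4
      exact h4
    exact h3.comp x hG.smooth.contDiffAt
  refine ⟨h1, h2, ?_, hsm, ?_⟩
  · intro x u hu
    have h3 : IG G x u ≠ 0 := by
      intro h4
      have h5 := (h1 x u).2
      rw [h4, map_zero] at h5
      exact hu h5.symm
    have h4 := hG.pos x _ h3
    rw [(h1 x u).2, real_inner_comm] at h4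
    exact h4
  · intro x w
    have e1 := ((hsm.differentiable (by simp)).differentiableAt (x := x)).hasFDerivAt
    have e2 := ((hG.smooth.differentiable (by simp)).differentiableAt (x := x)).hasFDerivAt
    have e3 := e1.clm_comp e2
    have e4 : (fun y => (IG G y).comp (G y)) = fun _ => ContinuousLinearMap.id ℝ (V d) := by
      funext y
      ext u
      rw [ContinuousLinearMap.comp_apply, (h1 y u).1]
      rfl
    rw [e4] at e3
    have e5 := e3.unique (hasFDerivAt_const _ _)
    have e6 : ∀ u, IG G x (fderiv ℝ G x w u) + fderiv ℝ (IG G) x w (G x u) = 0 := by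
      intro u
      have e7 := congrArg (fun L : V d →L[ℝ] (V d →L[ℝ] V d) => L w u) e5
      simpa using e7
    refine ContinuousLinearMap.ext fun u => ?_
    have e8 := e6 (IG G x u)
    rw [(h1 x u).2] at e8
    rw [ContinuousLinearMap.neg_apply, ContinuousLinearMap.comp_apply, ContinuousLinearMap.comp_apply]
    exact eq_neg_of_add_eq_zero_right e8

end

end Pool.Agent.VD
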