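import Pool.Agent.helper80.VD.SpecG

set_option autoImplicit false

open scoped ContDiff Topology InnerProductSpace
open MeasureTheory Filter Set

namespace Pool.Agent.VD

noncomputable section

theorem GQG_nonneg {d : ℕ} {A : V d →L[ℝ] V d} (h : ∀ u, u ≠ 0 → 0 < ⟪A u, u⟫_ℝ) (u : V d) : 0 ≤ ⟪A u, u⟫_ℝ := by
  by_cases h0 : u = 0
  · rw [h0, inner_zero_right]
  · exact (h u h0).le

theorem GQG_cs {d : ℕ} {A : V d →L[ℝ] V d} (hs : ∀ u v, ⟪A u, v⟫_ℝ = ⟪u, A v⟫_ℝ) (h : ∀ u, u ≠ 0 → 0 < ⟪A u, u⟫_ℝ) (z u : V d) :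
    |2 * ⟪A z, u⟫_ℝ| ≤ ⟪A u, u⟫_ℝ + ⟪A z, z⟫_ℝ := by
  have h1 := GQG_nonneg h (z + u)
  have h2 := GQG_nonneg h (z - u)
  have h3 : ⟪A u, z⟫_ℝ = ⟪A z, u⟫_ℝ := by rw [hs u z, real_inner_comm]
  rw [map_add, inner_add_left, inner_add_right, inner_add_right, h3] at h1
  rw [map_sub, inner_sub_left, inner_sub_right, inner_sub_right, h3] at h2
  rw [abs_le]
  constructor <;> linarith

theorem GQG_proof (hGIN : GIN_stmt) (_hGVL : GVL_stmt) (hGQD : GQD_stmt) (_hGRI : GRI_stmt) (hGNG : GNG_stmt) : GQG_stmt := by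
  intro d Γ _ _ K k B hK
  obtain ⟨C, hC, hN⟩ := hGNG d Γ K k B hK
  refine ⟨1 + C, by linarith, ?_⟩
  intro G hG c q t hJ hnrm hxi hW
  obtain ⟨n1, -, n3⟩ := hN G hG
  obtain ⟨g1, g2, g3, -, -⟩ := hGIN d G hG.met
  obtain ⟨q1, q2, q3, -, -⟩ := hGQD d G hG.met c q q t hJ hJ
  obtain ⟨x, hx⟩ : ∃ x, x = (c t).1 := ⟨_, rfl⟩
  obtain ⟨v, hv⟩ : ∃ v, v = vel G (c t) := ⟨_, rfl⟩
  obtain ⟨u, hu⟩ : ∃ u, u = (q t).1 := ⟨_, rfl⟩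
  obtain ⟨W, hWd⟩ : ∃ W, W = Wc G (c t) (q t) := ⟨_, rfl⟩
  rw [← hWd, ← hx, ← hu, ← hv] at q1
  rw [← hWd, ← hu] at q2
  rw [← hWd, ← hx, ← hu, ← hv] at q3
  rw [← hWd, ← hv] at hW
  rw [← hu] at hxi
  rw [← hWd, ← hx, ← hu]
  have hvx : v = IG G x (c t).2 := by rw [hv, hx]; rfl
  have hGv : G x v = (c t).2 := by rw [hvx]; exact (g1 x _).2
  have hvv : ⟪G x v, v⟫_ℝ = 1 := by
    rw [hGv]
    have h1 : nrm G (c t) = Real.sqrt ⟪IG G x (c t).2, (c t).2⟫_ℝ := by rw [hx]; rfl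
    rw [h1, ← hvx] at hnrm
    have h2 := Real.sqrt_eq_one.1 hnrm
    rw [real_inner_comm]
    exact h2
  have huv : ⟪G x u, v⟫_ℝ = 0 := by
    rw [hG.met.symm, hGv, real_inner_comm]
    exact hxi
  have hz : G x (IG G x W) = W := (g1 x W).2
  have hzz : ⟪G x (IG G x W), IG G x W⟫_ℝ = ⟪IG G x W, W⟫_ℝ := by
    rw [hz, real_inner_comm]
  have a1 : 0 ≤ ⟪IG G x W, W⟫_ℝ := GQG_nonneg (g3 x) W
  have a2 : 0 ≤ ⟪G x u, u⟫_ℝ := GQG_nonneg (hG.met.pos x) u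
  have hadd := q2.add q3
  refine ⟨_, _, q1, hadd, ?_, ?_⟩
  · have h1 := n1 x u v
    rw [hvv, huv] at h1
    have hk := hG.kpos
    have h2 : min 1 k * ⟪G x u, u⟫_ℝ ≤ k * ⟪G x u, u⟫_ℝ := mul_le_mul_of_nonneg_right (min_le_right _ _) a2
    have h3 : min 1 k * ⟪IG G x W, W⟫_ℝ ≤ 1 * ⟪IG G x W, W⟫_ℝ := mul_le_mul_of_nonneg_right (min_le_left _ _) a1
    nlinarith
  · have e1 : |2 * ⟪W, u⟫_ℝ| ≤ ⟪G x u, u⟫_ℝ + ⟪IG G x W, W⟫_ℝ := by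
      have h1 := GQG_cs (hG.met.symm x) (hG.met.pos x) (IG G x W) u
      rw [hzz, hz] at h1
      exact h1
    have e2 : |2 * ⟪Riem G x u v v, W⟫_ℝ| ≤ C * (⟪G x u, u⟫_ℝ + ⟪IG G x W, W⟫_ℝ) := by
      have h1 := n3 x u v (IG G x W)
      rw [hvv, hzz, hG.met.symm, hz] at h1
      have h2 : (2 * ⟪Riem G x u v v, W⟫_ℝ) ^ 2 ≤ (C * (⟪G x u, u⟫_ℝ + ⟪IG G x W, W⟫_ℝ)) ^ 2 := by
        nlinarith [sq_nonneg (C * (⟪G x u, u⟫_ℝ - ⟪IG G x W, W⟫_ℝ))]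
      exact abs_le_of_sq_le_sq h2 (by positivity)
    have e3 : ⟪W, u⟫_ℝ + ⟪W, u⟫_ℝ + (-⟪Riem G x u v v, W⟫_ℝ - ⟪Riem G x u v v, W⟫_ℝ) = 2 * ⟪W, u⟫_ℝ - 2 * ⟪Riem G x u v v, W⟫_ℝ := by ring
    rw [e3]
    refine (abs_sub _ _).trans ?_
    linarith

end

end Pool.Agent.VD
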