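import Pool.Agent.helper11.VD.Spec3e
import Pool.Agent.helper40.VD.EHD

/-!
# Project VD: row NNC (conformal change of norms and means)
-/

set_option autoImplicit false

open scoped ContDiff Topology InnerProductSpace ENNReal ComplexConjugate
open MeasureTheory Filter Set

namespace Pool.Agent.VD

noncomputable section

theorem NNC_exp {s t : ℝ} (h : |t| ≤ s) : |Real.exp t - 1| ≤ s * Real.exp s := by
  have hs : 0 ≤ s := (abs_nonneg t).trans h
  have h1 : Real.exp s - 1 ≤ s * Real.exp s := by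
    have h2 : (1 - s) * Real.exp s ≤ 1 := by
      have h3 : 1 - s ≤ Real.exp (-s) := by
        have := Real.add_one_le_exp (-s)
        linarith
      calc (1 - s) * Real.exp s ≤ Real.exp (-s) * Real.exp s := mul_le_mul_of_nonneg_right h3 (Real.exp_pos _).le
        _ = 1 := by rw [← Real.exp_add, neg_add_cancel, Real.exp_zero]
    linarith
  have h4 : 1 ≤ Real.exp s := Real.one_le_exp hs
  rw [abs_le]
  constructor
  · have h5 := Real.add_one_le_exp t
    have h6 := (abs_le.mp h).1
    nlinarith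
  · have h7 : Real.exp t ≤ Real.exp s := Real.exp_le_exp.mpr ((abs_le.mp h).2)
    linarith

theorem NNC_int {d : ℕ} {g : V d → ℝ} (hg : Continuous g) {F : Set (V d)} {b : ℝ} (hF : ∀ x ∈ F, ‖x‖ ≤ b) : IntegrableOn g F volume := by
  have h1 : IntegrableOn g (Metric.closedBall (0 : V d) b) volume := hg.continuousOn.integrableOn_compact (isCompact_closedBall _ _)
  exact h1.mono_set (fun x hx => by
    rw [mem_closedBall_zero_iff]
    exact hF x hx)

/-- the comparison of two integrals -/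
theorem NNC_cmp {d : ℕ} {g w r : V d → ℝ} (hg : Continuous g) (hw : Continuous w) (hr : Continuous r) {F : Set (V d)} {b c : ℝ} (hF : ∀ x ∈ F, ‖x‖ ≤ b) (hgw : ∀ x, |g x| ≤ w x) (hrc : ∀ x, |r x - 1| ≤ c) :
    |(∫ x in F, g x * r x) - ∫ x in F, g x| ≤ c * ∫ x in F, w x := by
  have i1 : IntegrableOn (fun x => g x * r x) F volume := NNC_int (hg.mul hr) hF
  have i2 : IntegrableOn (fun x => c * w x) F volume := NNC_int (continuous_const.mul hw) hF
  rw [← integral_sub i1 (NNC_int hg hF), ← integral_const_mul]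
  rw [← Real.norm_eq_abs]
  refine norm_integral_le_of_norm_le i2 (Filter.Eventually.of_forall fun x => ?_)
  have h1 : g x * r x - g x = g x * (r x - 1) := by ring
  rw [h1, norm_mul, Real.norm_eq_abs, Real.norm_eq_abs, mul_comm c]
  exact mul_le_mul (hgw x) (hrc x) (abs_nonneg _) ((abs_nonneg _).trans (hgw x))

theorem NNC_mean {a b a' b' c : ℝ} (h0 : 0 ≤ a) (hab : a ≤ b) (ha' : 0 ≤ a' / b' ∧ a' / b' ≤ 1) (hc : 0 ≤ c) (h1 : |a' - a| ≤ c * b) (h2 : |b' - b| ≤ c * b) : |a' / b' - a / b| ≤ 4 * c := by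
  have hb : 0 ≤ b := h0.trans hab
  have hm : 0 ≤ a / b ∧ a / b ≤ 1 := ⟨div_nonneg h0 hb, div_le_one_of_le₀ hab hb⟩
  by_cases hc2 : 1 / 2 ≤ c
  · rw [abs_le]
    constructor <;> linarith [hm.1, hm.2, ha'.1, ha'.2]
  · push Not at hc2
    rcases hb.eq_or_lt with hb0 | hb0
    · rw [← hb0] at h2 ⊢
      have h3 : b' = 0 := by
        have h4 : |b' - 0| ≤ 0 := by linarith
        have h5 := abs_nonneg (b' - 0)
        have h6 : |b' - 0| = 0 := le_antisymm h4 h5
        rw [abs_eq_zero, sub_zero] at h6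
        exact h6
      rw [h3, div_zero, div_zero, sub_zero, abs_zero]
      linarith
    · have h3 : b / 2 ≤ b' := by
        have h4 := (abs_le.mp h2).1
        nlinarith
      have hb' : 0 < b' := by linarith
      have h5 : a' / b' - a / b = ((a' - a) * b - a * (b' - b)) / (b' * b) := by
        field_simp
        ring
      rw [h5, abs_div, abs_of_pos (mul_pos hb' hb0), div_le_iff₀ (mul_pos hb' hb0)]
      have h6 : |(a' - a) * b - a * (b' - b)| ≤ c * b * b + b * (c * b) := by
        refine (abs_sub _ _).trans ?_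
        rw [abs_mul, abs_mul, abs_of_pos hb0, abs_of_nonneg h0]
        refine add_le_add (mul_le_mul_of_nonneg_right h1 hb0.le) (mul_le_mul hab h2 (abs_nonneg _) hb0.le)
      refine h6.trans ?_
      have h7 : c * b * b ≤ c * (2 * b') * b := by
        refine mul_le_mul_of_nonneg_right (mul_le_mul_of_nonneg_left ?_ hc) hb0.le
        linarith
      nlinarith

theorem NNC_proof (hMVE : MVE_stmt) : NNC_stmt := by
  intro d
  have hd : (0 : ℝ) ≤ d := Nat.cast_nonneg d
  set C0 : ℝ := (d : ℝ) / 2 * Real.exp ((d : ℝ) / 2) with hC0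
  have hC00 : 0 ≤ C0 := by positivity
  refine ⟨4 * C0 + 1, by linarith, fun G f h φ F b η hG hf hη hη1 hfη hFm hFb hφ hh hh1 => ?_⟩
  have hG' : IsMetric (cfm f G) := EHD_scale d G hG f hf
  obtain ⟨c1, c2, c3, c4, c5⟩ := hMVE d G hG
  obtain ⟨c1', c2', c3', c4', c5'⟩ := hMVE d (cfm f G) hG'
  have hdens : ∀ x, dens (cfm f G) x = Real.exp ((d : ℝ) / 2 * f x) * dens G x := fun x => EHD_dens d G f x
  have hr : ∀ x, |Real.exp ((d : ℝ) / 2 * f x) - 1| ≤ C0 * η := by
    intro x
    have h1 : |(d : ℝ) / 2 * f x| ≤ (d : ℝ) / 2 * η := by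
      rw [abs_mul, abs_of_nonneg (by positivity : (0 : ℝ) ≤ (d : ℝ) / 2)]
      exact mul_le_mul_of_nonneg_left (hfη x) (by positivity)
    refine (NNC_exp h1).trans ?_
    have h2 : Real.exp ((d : ℝ) / 2 * η) ≤ Real.exp ((d : ℝ) / 2) := Real.exp_le_exp.mpr (by nlinarith)
    calc (d : ℝ) / 2 * η * Real.exp ((d : ℝ) / 2 * η) ≤ (d : ℝ) / 2 * η * Real.exp ((d : ℝ) / 2) := mul_le_mul_of_nonneg_left h2 (by positivity)
      _ = C0 * η := by rw [hC0]; ring
  have hrc : Continuous fun x => Real.exp ((d : ℝ) / 2 * f x) := by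
    have := hf.continuous
    fun_prop
  have hdp : ∀ x, 0 ≤ dens G x := fun x => (c2 x).le
  have hφ2 : Continuous fun x => ‖φ x‖ ^ 2 := by fun_prop
  -- the general comparison
  have key : ∀ g w : V d → ℝ, Continuous g → Continuous w → (∀ x, |g x| ≤ w x) → |(∫ x in F, g x * dens (cfm f G) x) - ∫ x in F, g x * dens G x| ≤ C0 * η * ∫ x in F, w x * dens G x := by
    intro g w hg hw hgw
    have h1 := NNC_cmp (g := fun x => g x * dens G x) (w := fun x => w x * dens G x) (r := fun x => Real.exp ((d : ℝ) / 2 * f x)) (hg.mul c1) (hw.mul c1) hrc (c := C0 * η) hFb (fun x => by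
      rw [abs_mul, abs_of_nonneg (hdp x)]
      exact mul_le_mul_of_nonneg_right (hgw x) (hdp x)) hr
    have h2 : (∫ x in F, g x * dens G x * Real.exp ((d : ℝ) / 2 * f x)) = ∫ x in F, g x * dens (cfm f G) x := by
      refine integral_congr_ae (Filter.Eventually.of_forall fun x => ?_)
      change g x * dens G x * Real.exp ((d : ℝ) / 2 * f x) = g x * dens (cfm f G) x
      rw [hdens x]
      ring
    rw [h2] at h1
    exact h1
  have hnn : nn G F φ = ∫ x in F, ‖φ x‖ ^ 2 * dens G x := by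
    unfold nn
    exact c3 F _ hFm
  have hnn' : nn (cfm f G) F φ = ∫ x in F, ‖φ x‖ ^ 2 * dens (cfm f G) x := by
    unfold nn
    exact c3' F _ hFm
  have hnn0 : 0 ≤ nn G F φ := by
    unfold nn
    exact integral_nonneg fun x => by positivity
  have hle : C0 * η * nn G F φ ≤ (4 * C0 + 1) * η * nn G F φ := by
    refine mul_le_mul_of_nonneg_right (mul_le_mul_of_nonneg_right (by linarith) hη) hnn0
  refine ⟨?_, ?_, ?_⟩
  · refine le_trans ?_ hle
    rw [c3' F _ hFm, c3 F _ hFm, hnn]
    refine key (fun x => h x * ‖φ x‖ ^ 2) (fun x => ‖φ x‖ ^ 2) (hh.mul hφ2) hφ2 (fun x => ?_)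
    rw [abs_mul, abs_of_nonneg (hh1 x).1, abs_of_nonneg (by positivity : (0 : ℝ) ≤ ‖φ x‖ ^ 2)]
    exact mul_le_of_le_one_left (by positivity) (hh1 x).2
  · refine le_trans ?_ hle
    rw [hnn', hnn]
    exact key (fun x => ‖φ x‖ ^ 2) (fun x => ‖φ x‖ ^ 2) hφ2 hφ2 (fun x => le_of_eq (abs_of_nonneg (by positivity)))
  · have hm : mean G F h = (∫ x in F, h x * dens G x) / ∫ x in F, dens G x := by
      unfold mean
      rw [c3 F _ hFm, (c4 F b hFm hFb).2]
    have hm' : mean (cfm f G) F h = (∫ x in F, h x * dens (cfm f G) x) / ∫ x in F, dens (cfm f G) x := by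
      unfold mean
      rw [c3' F _ hFm, (c4' F b hFm hFb).2]
    have h01' := c5' F h hFm hh1
    rw [hm'] at h01'
    rw [hm, hm']
    have k1 := key h (fun _ => 1) hh continuous_const (fun x => by rw [abs_of_nonneg (hh1 x).1]; exact (hh1 x).2)
    have k2 := key (fun _ => 1) (fun _ => 1) continuous_const continuous_const (fun x => by simp)
    simp only [one_mul] at k1 k2
    have h0 : 0 ≤ ∫ x in F, h x * dens G x := integral_nonneg fun x => mul_nonneg (hh1 x).1 (hdp x)
    have hle2 : (∫ x in F, h x * dens G x) ≤ ∫ x in F, dens G x :=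
      integral_mono (NNC_int (hh.mul c1) hFb) (NNC_int c1 hFb) (fun x => mul_le_of_le_one_left (hdp x) (hh1 x).2)
    have h3 := NNC_mean h0 hle2 h01' (by positivity) k1 k2
    refine h3.trans ?_
    nlinarith

end

end Pool.Agent.VD
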