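import Pool.Agent.helper11.VD.SpecR

set_option autoImplicit false

open scoped ContDiff Topology InnerProductSpace ENNReal
open MeasureTheory Filter Set

namespace Pool.Agent.VD

theorem NPD_card {d : ℕ} (s : Finset (V d)) (x : V d) (r : ℝ) (hr : 0 < r) (hs : ∀ c ∈ s, ‖x - c‖ ≤ 4 * r)
    (h : ∀ c ∈ s, ∀ e ∈ s, c ≠ e → r ≤ ‖c - e‖) : s.card ≤ 10 ^ d := by
  have D : Set.Pairwise (s : Set (V d)) (Function.onFun Disjoint fun c => Metric.ball (c : V d) (r / 2)) := by
    rintro c hc e he hce
    apply Metric.ball_disjoint_ball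
    rw [dist_eq_norm]
    have h1 := h c hc e he hce
    linarith
  have A_subset : (⋃ c ∈ s, Metric.ball (c : V d) (r / 2)) ⊆ Metric.ball x (5 * r) := by
    refine iUnion₂_subset fun c hc => ?_
    apply Metric.ball_subset_ball'
    have h1 := hs c hc
    rw [dist_comm, dist_eq_norm]
    linarith
  have hfin : Module.finrank ℝ (V d) = d := by simp
  have I : (s.card : ℝ≥0∞) * ENNReal.ofReal ((r / 2) ^ d) * (volume : Measure (V d)) (Metric.ball 0 1) ≤
      ENNReal.ofReal ((5 * r) ^ d) * (volume : Measure (V d)) (Metric.ball 0 1) := by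
    calc (s.card : ℝ≥0∞) * ENNReal.ofReal ((r / 2) ^ d) * (volume : Measure (V d)) (Metric.ball 0 1)
        = (volume : Measure (V d)) (⋃ c ∈ s, Metric.ball (c : V d) (r / 2)) := by
          rw [measure_biUnion_finset D fun c _ => measurableSet_ball]
          have I : 0 < r / 2 := by positivity
          simp only [Measure.addHaar_ball_of_pos (volume : Measure (V d)) _ I, hfin]
          simp only [Finset.sum_const, nsmul_eq_mul, mul_assoc]
      _ ≤ (volume : Measure (V d)) (Metric.ball x (5 * r)) := measure_mono A_subset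
      _ = ENNReal.ofReal ((5 * r) ^ d) * (volume : Measure (V d)) (Metric.ball 0 1) := by
          rw [Measure.addHaar_ball_of_pos (volume : Measure (V d)) _ (by positivity : (0 : ℝ) < 5 * r), hfin]
  have J : (s.card : ℝ≥0∞) * ENNReal.ofReal ((r / 2) ^ d) ≤ ENNReal.ofReal ((5 * r) ^ d) :=
    (ENNReal.mul_le_mul_iff_left (Metric.measure_ball_pos _ _ zero_lt_one).ne' measure_ball_lt_top.ne).1 I
  have K : (s.card : ℝ) * (r / 2) ^ d ≤ (5 * r) ^ d := by
    have h1 := ENNReal.toReal_le_of_le_ofReal (by positivity) J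
    rw [ENNReal.toReal_mul, ENNReal.toReal_natCast, ENNReal.toReal_ofReal (by positivity)] at h1
    exact h1
  have h2 : (5 * r) ^ d = 10 ^ d * (r / 2) ^ d := by
    rw [← mul_pow]
    congr 1
    ring
  rw [h2] at K
  have h3 : (s.card : ℝ) ≤ 10 ^ d := le_of_mul_le_mul_right K (by positivity)
  exact_mod_cast h3

theorem NPD_proof : NPD_stmt := by
  classical
  intro d K s hK hs
  let ε : NNReal := ⟨s, hs.le⟩
  have hε : ε / 2 ≠ 0 := by
    have h1 : ε ≠ 0 := fun h => hs.ne' (congrArg NNReal.toReal h)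
    exact div_ne_zero h1 two_ne_zero
  obtain ⟨N0, hN0, hN0f, hN0c⟩ := Metric.exists_finite_isCover_of_isCompact hε hK
  have hpack : Metric.packingNumber ε K ≠ ⊤ := by
    have h1 := Metric.packingNumber_two_mul_le_externalCoveringNumber (ε / 2) K
    have h2 : 2 * (ε / 2) = ε := mul_div_cancel₀ ε two_ne_zero
    rw [h2] at h1
    have h3 : Metric.externalCoveringNumber (ε / 2) K ≤ N0.encard := by
      unfold Metric.externalCoveringNumber
      exact iInf₂_le N0 hN0c
    exact ne_top_of_le_ne_top (Set.encard_ne_top_iff.2 hN0f) (h1.trans h3)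
  let N := Metric.maximalSeparatedSet ε K
  have hNf : N.Finite := by
    rw [← Set.encard_ne_top_iff, Metric.encard_maximalSeparatedSet hpack]
    exact hpack
  have hNsub : N ⊆ K := Metric.maximalSeparatedSet_subset
  have hNsep : Metric.IsSeparated ε N := Metric.isSeparated_maximalSeparatedSet
  have hNcov : Metric.IsCover ε K N := Metric.isCover_maximalSeparatedSet hpack
  let e := hNf.toFinset.equivFin
  let p : Fin hNf.toFinset.card → V d := fun j => (e.symm j : V d)
  have hp : ∀ j, p j ∈ N := fun j => (Set.Finite.mem_toFinset hNf).1 (e.symm j).2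
  have hpinj : Function.Injective p := fun i j hij => e.symm.injective (Subtype.ext hij)
  refine ⟨hNf.toFinset.card, p, fun j => hNsub (hp j), ?_, ?_⟩
  · intro x hx
    obtain ⟨y, hy, hxy⟩ := hNcov hx
    refine ⟨e ⟨y, (Set.Finite.mem_toFinset hNf).2 hy⟩, ?_⟩
    have h1 : p (e ⟨y, (Set.Finite.mem_toFinset hNf).2 hy⟩) = y := by
      change ((e.symm (e ⟨y, _⟩) : hNf.toFinset) : V d) = y
      rw [Equiv.symm_apply_apply]
    rw [h1, ← dist_eq_norm]
    have h2 : edist x y ≤ ε := hxy
    rw [edist_nndist, ENNReal.coe_le_coe] at h2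
    exact h2
  · intro x
    have h1 : ({j : Fin hNf.toFinset.card | ‖x - p j‖ ≤ 4 * s} : Set _).ncard =
        ((Finset.univ.filter fun j => ‖x - p j‖ ≤ 4 * s).image p).card := by
      rw [Finset.card_image_of_injective _ hpinj]
      have h5 : ({j : Fin hNf.toFinset.card | ‖x - p j‖ ≤ 4 * s} : Set _) =
          ((Finset.univ.filter fun j => ‖x - p j‖ ≤ 4 * s : Finset (Fin hNf.toFinset.card)) : Set _) := by
        ext j
        simp
      rw [h5]
      exact Set.ncard_coe_finset _
    rw [h1]
    refine NPD_card _ x s hs ?_ ?_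
    · intro c hc
      obtain ⟨j, hj, rfl⟩ := Finset.mem_image.1 hc
      exact (Finset.mem_filter.1 hj).2
    · intro c hc c' hc' hne
      obtain ⟨j, hj, rfl⟩ := Finset.mem_image.1 hc
      obtain ⟨j', hj', rfl⟩ := Finset.mem_image.1 hc'
      have h2 : (ε : ℝ≥0∞) < edist (p j) (p j') := hNsep (hp j) (hp j') hne
      rw [edist_nndist, ENNReal.coe_lt_coe] at h2
      rw [← dist_eq_norm]
      exact le_of_lt h2

end Pool.Agent.VD
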