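import Pool.Agent.helper99.VD.SpecV

/-!
# Project VD: row UTA (Taylor in time)

`c s = Φ s p`; `s ↦ XH G (c s)` is Lipschitz on `[-1, 1]`, twice the mean value inequality.
-/

set_option autoImplicit false

open scoped ContDiff Topology InnerProductSpace ENNReal
open MeasureTheory Filter Set

namespace Pool.Agent.VD

noncomputable section

/-- the mean value inequality on a segment -/
theorem UTA_mv {E : Type} [NormedAddCommGroup E] [NormedSpace ℝ E] {g g' : ℝ → E} {C u : ℝ} (hg : ∀ s, HasDerivAt g (g' s) s) (hb : ∀ s, |s| ≤ |u| → ‖g' s‖ ≤ C) : ‖g u - g 0‖ ≤ C * |u| := by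
  have h := (convex_uIcc (0 : ℝ) u).norm_image_sub_le_of_norm_hasDerivWithin_le (f := g) (f' := g') (C := C) (fun s _ => (hg s).hasDerivWithinAt) (fun s hs => hb s (by
    rw [Set.mem_uIcc] at hs
    rcases hs with hs | hs
    · rw [abs_of_nonneg hs.1, abs_of_nonneg (hs.1.trans hs.2)]
      exact hs.2
    · rw [abs_of_nonpos hs.2, abs_of_nonpos (hs.1.trans hs.2)]
      linarith [hs.1])) (x := 0) (y := u) Set.left_mem_uIcc Set.right_mem_uIcc
  have h2 : ‖u - 0‖ = |u| := by rw [sub_zero, Real.norm_eq_abs]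
  rw [h2] at h
  exact h

theorem UTA_proof (hGDB : GDB_stmt) (hGXH : GXH_stmt) : UTA_stmt := by
  intro d Γ _ _ K k B hK m
  obtain ⟨C0, H0⟩ := hGDB d Γ K k B hK m 1 1
  set C1 : ℝ := max C0 1 with hC1
  have h11 : 1 ≤ C1 := le_max_right _ _
  refine ⟨C1 ^ 2, one_le_pow₀ h11, fun G Φ hG hΦ p u hp hn hu => ?_⟩
  have hsm := (hGXH d G hG.met).2.1
  have hb : ∀ s : ℝ, |s| ≤ 1 → ‖XH G (Φ s p)‖ ≤ C1 ∧ ‖fderiv ℝ (XH G) (Φ s p)‖ ≤ C1 := by
    intro s hs
    have h := H0 G Φ hG hΦ p s hp (by linarith) hs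
    have a0 := (h 0 (by norm_num)).2
    have a1 := (h 1 le_rfl).2
    rw [norm_iteratedFDeriv_zero] at a0
    rw [norm_iteratedFDeriv_one] at a1
    exact ⟨a0.trans (le_max_left _ _), a1.trans (le_max_left _ _)⟩
  have hd : ∀ s : ℝ, HasDerivAt (fun r => Φ r p) (XH G (Φ s p)) s := fun s => hΦ.deriv s p
  have hXd : ∀ s : ℝ, HasDerivAt (fun r => XH G (Φ r p)) (fderiv ℝ (XH G) (Φ s p) (XH G (Φ s p))) s := by
    intro s
    have h1 : HasFDerivAt (XH G) (fderiv ℝ (XH G) (Φ s p)) (Φ s p) := (hsm.differentiable (by simp) _).hasFDerivAt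
    exact h1.comp_hasDerivAt s (hd s)
  have hX : ∀ s : ℝ, |s| ≤ 1 → ‖XH G (Φ s p) - XH G p‖ ≤ C1 ^ 2 * |s| := by
    intro s hs
    have h := UTA_mv (C := C1 ^ 2) hXd (fun r hr => by
      have h1 := hb r (hr.trans hs)
      calc ‖fderiv ℝ (XH G) (Φ r p) (XH G (Φ r p))‖ ≤ ‖fderiv ℝ (XH G) (Φ r p)‖ * ‖XH G (Φ r p)‖ := ContinuousLinearMap.le_opNorm _ _
        _ ≤ C1 * C1 := mul_le_mul h1.2 h1.1 (norm_nonneg _) (by linarith)
        _ = C1 ^ 2 := by ring)
    simp only [hΦ.zero] at h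
    exact h
  have hT : ‖Φ u p - p - u • XH G p‖ ≤ C1 ^ 2 * u ^ 2 := by
    have hder : ∀ s : ℝ, HasDerivAt (fun r => Φ r p - r • XH G p) (XH G (Φ s p) - XH G p) s := by
      intro s
      have h1 : HasDerivAt (fun r : ℝ => r • XH G p) ((1 : ℝ) • XH G p) s := (hasDerivAt_id s).smul_const (XH G p)
      rw [one_smul] at h1
      exact (hd s).sub h1
    have h := UTA_mv (C := C1 ^ 2 * |u|) hder (fun r hr => (hX r (hr.trans hu)).trans (mul_le_mul_of_nonneg_left hr (by positivity)))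
    have h2 : (Φ u p - u • XH G p) - (Φ 0 p - (0 : ℝ) • XH G p) = Φ u p - p - u • XH G p := by
      rw [hΦ.zero, zero_smul, sub_zero]
      abel
    rw [h2] at h
    refine h.trans (le_of_eq ?_)
    rw [mul_assoc, ← sq, sq_abs]
  have hL : ‖Φ u p - p‖ ≤ C1 * |u| := by
    have h := UTA_mv (C := C1) hd (fun r hr => (hb r (hr.trans hu)).1)
    simp only [hΦ.zero] at h
    exact h
  constructor
  · have h1 : (Φ u p).1 - p.1 - u • vel G p = (Φ u p - p - u • XH G p).1 := rfl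
    rw [h1]
    exact (norm_fst_le _).trans hT
  · have h1 : (Φ u p).1 - p.1 = (Φ u p - p).1 := rfl
    rw [h1]
    refine (norm_fst_le _).trans (hL.trans (mul_le_mul_of_nonneg_right ?_ (abs_nonneg _)))
    nlinarith

end

end Pool.Agent.VD
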