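import Pool.Agent.helper99.VD.SpecV

/-!
# Project VD: row UVL (velocities and energies)
-/

set_option autoImplicit false

open scoped ContDiff Topology InnerProductSpace ENNReal
open MeasureTheory Filter Set

namespace Pool.Agent.VD

noncomputable section

theorem UVL_proof (hGIN : GIN_stmt) (hGXH : GXH_stmt) (hGNR : GNR_stmt) : UVL_stmt := by
  intro d Γ _ _ K k B hK m
  obtain ⟨C1, hC1, H1⟩ := hGNR d B m
  refine ⟨2 * C1 + |B m 1| + |B m 0|, by nlinarith [abs_nonneg (B m 1), abs_nonneg (B m 0)], fun G hG => ?_⟩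
  obtain ⟨g1, g2, g3, -, -⟩ := hGIN d G hG.met
  have hn : ∀ p : P d, nrm G p ^ 2 = 1 + 2 * Ep G p := by
    intro p
    have h := (hGXH d G hG.met).2.2.2.1 p
    rw [h]
    unfold Ep
    ring
  have hn0 : ∀ p : P d, 0 ≤ nrm G p := fun p => Real.sqrt_nonneg _
  have hGv : ∀ p : P d, G p.1 (vel G p) = p.2 := fun p => (g1 p.1 p.2).2
  have hen : ∀ p : P d, ⟪G p.1 (vel G p), vel G p⟫_ℝ = 1 + 2 * Ep G p := by
    intro p
    rw [hGv p, real_inner_comm]
    unfold Ep Ham vel
    ring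
  have h32 : ∀ p : P d, |Ep G p| ≤ 1 / 8 → nrm G p ≤ 3 / 2 := by
    intro p hp
    have h := hn p
    have h' := (abs_le.mp hp).2
    nlinarith [hn0 p]
  have hrev : ∀ p : P d, vel G (rev p) = -vel G p := by
    intro p
    change IG G p.1 (-p.2) = -(IG G p.1 p.2)
    rw [map_neg]
  have hErev : ∀ p : P d, Ep G (rev p) = Ep G p := by
    intro p
    unfold Ep Ham
    change ⟪IG G p.1 (-p.2), -p.2⟫_ℝ / 2 - 1 / 2 = ⟪IG G p.1 p.2, p.2⟫_ℝ / 2 - 1 / 2
    rw [map_neg, inner_neg_neg]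
  have hb1 : 0 ≤ |B m 1| := abs_nonneg _
  have hb0 : 0 ≤ |B m 0| := abs_nonneg _
  refine ⟨fun p => ⟨hn p, hen p, hGv p, h32 p, hErev p, hrev p⟩, fun p hp hE => ?_, fun x y hx hy => ⟨?_, ?_, fun u => ?_⟩⟩
  · obtain ⟨a1, a2, a3, a4⟩ := H1 G hG.met hG.lo hG.bd p hp
    have hn2 := h32 p hE
    have h5 : ‖vel G p‖ ≤ 2 * C1 := a3.trans (by nlinarith [hn0 p])
    have h6 : ‖p.2‖ ≤ 2 * C1 := a1.trans (by nlinarith [hn0 p])
    refine ⟨?_, h5.trans (by linarith), h6.trans (by linarith)⟩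
    have h7 : 3 / 4 ≤ C1 * ‖vel G p‖ ^ 2 := by
      have h8 := (a4 (vel G p)).2.1
      rw [hen p] at h8
      have h9 := (abs_le.mp hE).1
      linarith
    have h10 : 1 / (2 * C1) ≤ ‖vel G p‖ := by
      rw [div_le_iff₀ (by linarith)]
      have hv : 0 ≤ ‖vel G p‖ := norm_nonneg _
      by_contra hlt
      push Not at hlt
      have h11 : C1 * ‖vel G p‖ ^ 2 ≤ (C1 * ‖vel G p‖) ^ 2 := by
        rw [mul_pow]
        refine mul_le_mul_of_nonneg_right ?_ (by positivity)
        nlinarith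
      have h12 : (C1 * ‖vel G p‖) ^ 2 < (1 / 2) ^ 2 := by
        refine pow_lt_pow_left₀ ?_ (by positivity) (by norm_num)
        linarith
      norm_num at h12
      linarith
    refine le_trans ?_ h10
    exact one_div_le_one_div_of_le (by linarith) (by linarith)
  · have hd : Differentiable ℝ G := hG.met.smooth.differentiable (by simp)
    have hcv : Convex ℝ (Metric.closedBall (0 : V d) (m : ℝ)) := convex_closedBall _ _
    have h := hcv.norm_image_sub_le_of_norm_fderiv_le (𝕜 := ℝ) (f := G) (C := |B m 1|) (fun z _ => hd z) (fun z hz => by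
      have h1 := hG.bd m 1 z (by simpa using hz)
      rw [norm_iteratedFDeriv_one] at h1
      exact h1.trans (le_abs_self _)) (x := y) (y := x) (by simpa using hy) (by simpa using hx)
    refine h.trans (mul_le_mul_of_nonneg_right (by linarith) (norm_nonneg _))
  · have h1 := hG.bd m 0 x hx
    rw [norm_iteratedFDeriv_zero] at h1
    have h2 := le_abs_self (B m 0)
    linarith
  · have hp : ‖((x, 0) : P d).1‖ ≤ m := hx
    obtain ⟨-, -, -, a4⟩ := H1 G hG.met hG.lo hG.bd (x, 0) hp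
    have h1 := (a4 u).1
    refine h1.trans ?_
    have h2 : 0 ≤ ⟪G x u, u⟫_ℝ := by
      by_contra hneg
      push Not at hneg
      have h3 : C1 * ⟪G x u, u⟫_ℝ < 0 := mul_neg_of_pos_of_neg (by linarith) hneg
      have h4 : (0 : ℝ) ≤ ‖u‖ ^ 2 := by positivity
      have h5 : ‖u‖ ^ 2 ≤ C1 * ⟪G x u, u⟫_ℝ := h1
      linarith
    exact mul_le_mul_of_nonneg_right (by linarith) h2

end

end Pool.Agent.VD
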